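import Pool.Agent.H66.D2.Kp3

/-!
# The strategy of a class whose base is static at all windows of nonfull rows

`NoRa`: at almost all windows of the nonfull rows all coordinates of the base are static, whatever
the slope of the target is. `PkT.plN3_sta`, `PkT.playA`: the strategy of a class from `NoRa`; at the
windows where the target has slope one no exactness is needed. `kp_of_classA`: `KP m` from `ClassN`,
`NoRa` and `TopW`.
-/

set_option autoImplicit false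

namespace Pool.PKG

open MeasureTheory Set Filter Topology
open Pool.Agent.H49.Ent Pool.Agent.H32.Dense Pool.STK Pool.KA Pool.KSAT Pool.K2S Pool.PB
open Pool.GEN Pool.S6C Pool.STAT Pool.CHT Pool.GRW Pool.ONE Pool.STA
open Pool.LBT (LSys ThrOf)
open Pool.LEV (Law Lv)
open Pool.ALL (RateOf)
open Pool.TOP (TopS)
open Pool.RTS (iso iso_dia iso_law iso_low diag_thr Diag)
open Pool.STR (NumI LeT CellD AttN Rle RowD Mac TopW MicW StaAt IsoAt StaU1 ae_rowD ae_dia)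
open Pool.STAT.CLO (up)
open Pool.FRN (AttC UpA Wgd attN_attC)

variable {n : ℕ} {hn : 2 ≤ n} {S : PCl n} {P : ℝ → ℝ → ℝ} {r ρ : ℝ → ℝ}
  {P' : ℕ → List (Fin n) × Fin n → ℝ → ℝ → ℝ} {Λ : Finset (Fin n) → Fin n → ℝ → ℝ → ℝ}
  {PB : ℕ → List (Fin n) × Fin n → ℝ → ℝ → ℝ}

/-- **The base is static at all windows**, for the rows of the rate `ρ`. -/
def NoRa (H : PkT hn S P r P' Λ PB) (hTop : TopS n) (hF : FZX (n - 1)) (hr : Rle r ρ) : Prop :=
  ∀ o : Od n, ∀ᵐ g : ℝ, ((H.nk hTop hF).chg hr H.up).RwD o g →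
    ∀ i < n - 1, StaAt (LL hn P P' o (i + 1)) g

/-- **The strategies of a class** with static base. -/
theorem PkT.plN3_sta (H : PkT hn S P r P' Λ PB) (hTop : TopS n) (hF : FZX (n - 1))
    (hr : Rle r ρ) (hR : NoRa H hTop hF hr) :
    ∃ W' : Od n → Set ℝ,
      ((H.nk hTop hF).chg hr H.up).PlN3 W' (fun o => AttI (P' o.2)) := by
  have hlaw := H.tgs.law ()
  obtain ⟨W', w1, w2, -, hWG, hWP⟩ := H.exW hTop hF (W := fun _ => univ)
    (fun _ => MeasurableSet.univ) fun _ => Eventually.of_forall fun _ _ _ _ => mem_univ _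
  refine ⟨W', ⟨w1, fun o => ?_, fun o => attN_attI (H.cht o.2), fun o => ?_, fun o => ?_⟩,
    fun o => ?_⟩
  · filter_upwards [w2 o] with g h1 h2 h3 h4
    exact h1 h2 h3 h4
  · refine ae_of_all _ fun g hg h0 h1 j => ?_
    obtain ⟨α, Q, c, F⟩ := H.toPk.fac hTop hF (o := o) hg
    have h2 := F.le j j.2 g g h0 le_rfl F.gα
    have h3 := (tht_pos o.2).trans F.thc
    exact lt_of_le_of_lt h2 (by linarith)
  · filter_upwards [hR o, NumI.rwD_chg (nk := H.nk hTop hF) hr H.up (H.tgs.law ()) o]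
      with g h1 h2 R'
    exact H.gmI_sta hTop hF (h2 R') (h1 R') (hWG o) (hWP o)
  · filter_upwards [hR o, NumI.rwD_chg (nk := H.nk hTop hF) hr H.up (H.tgs.law ()) o]
      with g h1 h2 R' hs
    exact H.gmI_staP hTop hF (h2 R') (h1 R') (hWG o)

/-- **The strategy of a class** with static base, for both thresholds. -/
theorem PkT.playA (H : PkT hn S P r P' Λ PB) (hTop : TopS n) (hF : FZX (n - 1))
    (hr : Rle r ρ) (hR : NoRa H hTop hF hr) (q : ((H.nk hTop hF).chg hr H.up).Par) :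
    q.cell.Play3 := by
  obtain ⟨W, hW⟩ := H.plN3_sta hTop hF hr hR
  exact hW.play3 q

/-- The base is static: from the rows of slope more than one and the rows of slope one. -/
theorem NoRE.noRa {H : PkT hn S P r P' Λ PB} {hTop : TopS n} {hF : FZX (n - 1)} {h : ℝ}
    (hR : NoRE H hTop hF h) (h1 : ∀ o : Od n, ∀ᵐ g : ℝ, RwH H hTop hF h o g →
      deriv (fun a => P a a) g = 1 → ∀ i < n - 1, StaAt (LL hn P P' o (i + 1)) g) :
    NoRa H hTop hF (H.rle h) := fun o => by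
  filter_upwards [hR o, h1 o, H.rwH_chg hTop hF h o] with g k1 k2 k3 R
  have R' := k3 R
  have hdg : (H.nk hTop hF).dg o (n - 1) = fun a => P a a := (H.nk hTop hF).dg_m o
  have hone : 1 ≤ deriv (fun a => P a a) g := by
    have h3 := R'.rwd.one (n - 1) le_rfl
    rwa [hdg] at h3
  rcases hone.eq_or_lt with h4 | h4
  · exact k2 R' h4.symm
  · exact k1 R' h4

/-- **`KP m` from the open statements about one class**: the three kinds of windows, and the base is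
static in all rows. -/
theorem kp_of_classA {m : ℕ} (hm : 1 ≤ m) (η : ℕ → ℝ → ℝ) (hη : ∀ n D, 0 < D → 0 < η n D)
    (hη1 : ∀ n D, 0 < D → η n D ≤ 1)
    (hG : ∀ n : ℕ, 2 ≤ n → n ≤ m → (∀ k, 2 ≤ k → k < n → Ext0 k) →
      ∀ (hn : 2 ≤ n) (_ : ∀ k, 1 ≤ k → k < n → FZX k) (hF : FZX (n - 1)) (hTop : TopS n)
      (D : ℝ), 0 < D → D ≤ 1 → Ext n ((1 + η n D) * D) → ∀ (S : PCl n) (P : ℝ → ℝ → ℝ)
      (r : ℝ → ℝ) (P' : ℕ → List (Fin n) × Fin n → ℝ → ℝ → ℝ)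
      (Λ : Finset (Fin n) → Fin n → ℝ → ℝ → ℝ)
      (PB : ℕ → List (Fin n) × Fin n → ℝ → ℝ → ℝ) (H : PkT hn S P r P' Λ PB),
      ClassN H hTop hF ((1 - η n D) * D))
    (hR : ∀ n : ℕ, 2 ≤ n → n ≤ m → (∀ k, 2 ≤ k → k < n → Ext0 k) → LocE n (η n) MicRt →
      ∀ (hn : 2 ≤ n) (_ : ∀ k, 1 ≤ k → k < n → FZX k) (hF : FZX (n - 1)) (hTop : TopS n)
      (D : ℝ), 0 < D → D ≤ 1 → Ext n ((1 + η n D) * D) → ∀ (S : PCl n) (P : ℝ → ℝ → ℝ)
      (r : ℝ → ℝ) (P' : ℕ → List (Fin n) × Fin n → ℝ → ℝ → ℝ)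
      (Λ : Finset (Fin n) → Fin n → ℝ → ℝ → ℝ)
      (PB : ℕ → List (Fin n) × Fin n → ℝ → ℝ → ℝ) (H : PkT hn S P r P' Λ PB),
      NoRa H hTop hF (H.rle ((1 - η n D) * D)))
    (hT : ∀ n, 2 ≤ n → n ≤ m → (∀ k, 2 ≤ k → k < n → Ext0 k) →
      LocE n (η n) fun P r _ => TopW P r) : KP m := by
  have hG' := fun n h1 h2 h3 hn hZ hF hTop D d1 d2 d3 S P r P' Λ PB H =>
    (hG n h1 h2 h3 hn hZ hF hTop D d1 d2 d3 S P r P' Λ PB H).goalN
  have hC : ∀ n, 2 ≤ n → n ≤ m → (∀ k, 2 ≤ k → k < n → Ext0 k) → CellE n (η n) :=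
    fun n h1 h2 h3 => cellE_ofN h3 (hG' n h1 h2 h3)
      fun hM hn hZ hF hTop D d1 d2 d3 S P r P' Λ PB H =>
        ⟨triv _, H.playA hTop hF _ (hR n h1 h2 h3 hM hn hZ hF hTop D d1 d2 d3 S P r P' Λ PB H) _⟩
  exact kp_indE hm η hη (fun n h1 h2 h3 => (hC n h1 h2 h3).mic (hη1 n))
    (fun n h1 h2 h3 => (hC n h1 h2 h3).sta (hη1 n)) fun n h1 h2 h3 =>
      jmpE_of_top (hη1 n) ((hC n h1 h2 h3).mic (hη1 n)) ((hC n h1 h2 h3).sta (hη1 n))
        (hT n h1 h2 h3)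

end Pool.PKG
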