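import Pool.Agent.H19.ONE.Cs
import Pool.Agent.H19.ONE.Ply
import Pool.Agent.H56.ASM.Two
import Pool.Agent.H82.MV.Lf12

/-!
# The rows whose target has slope one: the coordinates of the base are static

`Xo`: the windows of the count: the target has slope one, the coordinates of the base are thin or
static, the last one which is not static is rough. `one_cnt`: there are no such windows, from no boxes
with more than one contact coordinate (the exchanged class has the target in its base), and the data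
on the events. `one_dfo`: only the windows near which the order is greedy up to `o (R)` are needed.
`sta_slope1`: the static chains. `LSta1 n`, `LCell1 n κ`, `LMev1 n`, `LNv1 n l i`: the statements for
all classes; `lSta1_of`: the first from the others.
-/

set_option autoImplicit false

namespace Pool.SW

open MeasureTheory Set Filter Topology
open Pool.Agent.H49.Ent Pool.Agent.H32.Dense Pool.STK Pool.KA Pool.KSAT Pool.K2S Pool.PB Pool.S6C
open Pool.GEN Pool.ONE Pool.EXW Pool.TOP Pool.ZCL Pool.ZLC Pool.ZFN Pool.ZCO Pool.PKG Pool.CHT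
open Pool.Z4 Pool.ZL Pool.STA
open Pool.STR (StaAt ThinAt SteepAt)
open Pool.ASM (TwS twS_meas)
open Finset (range)

variable {n : ℕ} {hn : 2 ≤ n} {S : PCl n} {P : ℝ → ℝ → ℝ} {r : ℝ → ℝ}
  {P' : ℕ → List (Fin n) × Fin n → ℝ → ℝ → ℝ} {Λ : Finset (Fin n) → Fin n → ℝ → ℝ → ℝ}
  {PB : ℕ → List (Fin n) × Fin n → ℝ → ℝ → ℝ}

/-- **The windows of the count** where the target has slope one. -/
structure Xo (hn : 2 ≤ n) (P : ℝ → ℝ → ℝ) (P' PB : ℕ → List (Fin n) × Fin n → ℝ → ℝ → ℝ)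
    (o : Od n) (l : ℕ) (g : ℝ) : Prop where
  sta : StaAt P g
  one : deriv (fun a => P a a) g = 1
  ths : ∀ i < n - 1, ThS hn P P' PB o i g
  cfg : Pool.Z4.Cfg hn P P' o l g

/-- A second contact coordinate among the slots is a second contact coordinate of the base. -/
theorem cokS_two (hn4 : n ≤ 4) {τ : ℕ → ℝ} {σ : ℝ} (hσ : 1 < σ) {j : ℕ} (hj : 1 ≤ j)
    (hjn : j < n - 1) (hτ : τ j = 1) : CokS (TwS n) τ σ := by
  intro s h0 h1 h2
  refine ⟨hσ, fun hone => ?_⟩
  have hi : ∀ i, 1 ≤ i → i < n - 1 → 1 < s i := fun i i1 i2 => hone ⟨i, i2⟩ i1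
  have hn3 : n = 3 ∨ n = 4 := by omega
  rcases hn3 with rfl | rfl
  · obtain rfl : j = 1 := by omega
    obtain ⟨j', a1, a2, a3⟩ := h1 1 le_rfl (by norm_num)
    have h4 := hi 1 le_rfl (by norm_num)
    obtain rfl : j' = 1 := by omega
    rw [a3, hτ] at h4
    exact absurd h4 (lt_irrefl _)
  · have e1 : ∑ i ∈ range (4 - 1), s i = s 0 + s 1 + s 2 := by
      rw [show (4 : ℕ) - 1 = 3 from rfl, Finset.sum_range_succ, Finset.sum_range_succ,
        Finset.sum_range_one]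
    have e2 : ∑ i ∈ range (4 - 2), τ (i + 1) = τ 1 + τ 2 := by
      rw [show (4 : ℕ) - 2 = 2 from rfl, Finset.sum_range_succ, Finset.sum_range_one]
    rw [e1, e2, h0] at h2
    have k1 := hi 1 le_rfl (by norm_num)
    have k2 := hi 2 (by norm_num) (by norm_num)
    obtain ⟨i1, a1, a2, a3⟩ := h1 1 le_rfl (by norm_num)
    obtain ⟨i2, b1, b2, b3⟩ := h1 2 (by norm_num) (by norm_num)
    have hj2 : j = 1 ∨ j = 2 := by omega
    have hi1 : i1 = 1 ∨ i1 = 2 := by omega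
    have hi2 : i2 = 1 ∨ i2 = 2 := by omega
    rcases hj2 with rfl | rfl <;> rcases hi1 with rfl | rfl <;> rcases hi2 with rfl | rfl <;>
      rw [a3] at k1 h2 <;> rw [b3] at k2 h2 <;> linarith

/-- **There are no windows of the count** where the target has slope one. -/
theorem one_cnt (H : PkT hn S P r P' Λ PB) (hTop : TopS n) (hF1 : FZX 1) (hF : FZX (n - 1))
    (hn4 : n ≤ 4) (hW : ∀ k, 2 ≤ k → k < n → RW k) (hV : VAll hn hTop hF (TwS n))
    {h : ℝ} (hh : 0 ≤ h) {Y : Od n → ℝ → Prop} (hMev : ∀ (o : Od n) (l : ℕ), 1 ≤ l →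
      l < n - 1 → MevY hn S P r P' Λ o l
        (fun g => RwH H hTop hF h o g ∧ Xo hn P P' PB o l g ∧ Y o g)) (o : Od n) (l : ℕ) :
    ∀ᵐ g : ℝ, RwH H hTop hF h o g → Xo hn P P' PB o l g → Y o g → False := by
  have eP : LL hn P P' o (n - 1 + 1) = P := by
    rw [← lvL_eq o le_rfl]
    funext a w
    exact LvL_top o a w
  filter_upwards [hc0_cS H hTop hF1 hF hn4 hW (twS_meas n) hV hh
    (X := fun o l g => RwH H hTop hF h o g ∧ Xo hn P P' PB o l g ∧ Y o g) hMev o l]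
    with g k R hX hY
  have hl1 := hX.cfg.l1
  have hln := hX.cfg.ln
  refine k R hX.cfg ⟨R, hX, hY⟩ (cokS_two hn4 hX.cfg.one (j := n - 2) (by omega) (by omega) ?_)
  have e1 : ix l (n - 2) = n - 1 := by
    unfold ix
    rw [if_neg (by omega)]
    omega
  show deriv (fun v => LL hn P P' o (ix l (n - 2) + 1) v v) g = 1
  rw [e1, eP]
  exact hX.one

end Pool.SW

namespace Pool.MV

open MeasureTheory Set Filter Topology
open Pool.Agent.H49.Ent Pool.Agent.H32.Dense Pool.STK Pool.KA Pool.KSAT Pool.K2S Pool.PB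
open Pool.GEN Pool.S6C Pool.STAT Pool.CHT Pool.GRW Pool.ONE Pool.STA Pool.PKG Pool.ZFN Pool.TOP
open Pool.Z4
open Pool.LBT (LSys ThrOf)
open Pool.LEV (Law Lv)
open Pool.ALL (RateOf)
open Pool.STR (NumI StaAt ThinAt SteepAt MicW)
open Pool.EXW
open Pool.ISO (lvN)
open Pool.SW (Xo one_cnt)
open Pool.ASM (TwS)

variable {n : ℕ} {hn : 2 ≤ n} {S : PCl n} {P : ℝ → ℝ → ℝ} {r : ℝ → ℝ}
  {P' : ℕ → List (Fin n) × Fin n → ℝ → ℝ → ℝ} {Λ : Finset (Fin n) → Fin n → ℝ → ℝ → ℝ}
  {PB : ℕ → List (Fin n) × Fin n → ℝ → ℝ → ℝ}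

/-- **The static chains** where the target has slope one, from the same statement at the windows near
which the order is greedy up to `o (R)`. -/
theorem one_dfo (H : PkT hn S P r P' Λ PB) (hTop : TopS n) (hF : FZX (n - 1)) (hn4 : n ≤ 4)
    {h : ℝ} (hw : ∀ o : Od n, ∀ᵐ g : ℝ, RwH H hTop hF h o g →
      deriv (fun a => P a a) g = 1 → ∀ i < n - 1, ThS hn P P' PB o i g)
    (hR : ∀ o : Od n, ∀ᵐ g : ℝ, RwH H hTop hF h o g → deriv (fun a => P a a) g = 1 →
      DfO hn P' o g → ∀ i < n - 1, StaAt (LL hn P P' o (i + 1)) g) (o : Od n) :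
    ∀ᵐ g : ℝ, RwH H hTop hF h o g → deriv (fun a => P a a) g = 1 →
      ∀ i < n - 1, StaAt (LL hn P P' o (i + 1)) g := by
  rcases Nat.lt_or_ge n 4 with h3 | h4
  · -- no ties
    filter_upwards [hR o, dfo_of H.toPk hTop hF] with g k1 k2 R hS
    exact k1 R hS (k2 o R.rwd.mem fun i hi l hl hl1 => absurd hi (by omega))
  · have h4' : n = 4 := le_antisymm hn4 h4
    filter_upwards [ae_all_iff.2 hR, dfo_of H.toPk hTop hF, hw o, rg_ths H hTop hF,
      gs_swp H.toPk hTop hF h4, rwh_ae H hTop hF (h := h)] with g k1 k2 k3 k4 k5 k6 R hS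
    have ho := R.rwd.mem
    have h7 := k3 R hS
    by_cases hD : DfO hn P' o g
    · exact k1 o R hS hD
    exfalso
    have e2 : LL hn P P' o (n - 3 + 1) = bet (P' o.2) (cc hn o.1.1) (n - 3) := by
      rw [LL_low (by omega) (by omega), Nat.add_sub_cancel]
    -- the pair
    have hno : ¬ (bet (P' o.2) (cc hn o.1.1) (n - 3) g g <
        tau (P' o.2) (cc hn o.1.1) (n - 3) (n - 2) g g ∨
        StaAt (tau (P' o.2) (cc hn o.1.1) (n - 3) (n - 2)) g ∨
        RgUp (bet (P' o.2) (cc hn o.1.1) (n - 3)) g (bet (P' o.2) (cc hn o.1.1) (n - 3) g g)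
          (deriv (fun a => bet (P' o.2) (cc hn o.1.1) (n - 3) a a) g)) := by
      intro h8
      refine hD (k2 o ho fun i hi l hl hl1 => ?_)
      have e1 : l = n - 3 := by omega
      have e3 : i = n - 2 := by omega
      rw [e1, e3]
      exact h8
    push Not at hno
    obtain ⟨h8, h9, h10⟩ := hno
    have hsta : StaAt (bet (P' o.2) (cc hn o.1.1) (n - 3)) g := by
      rcases k4 o ho (n - 3) (by omega) (h7 (n - 3) (by omega)) with h11 | h11
      · rwa [e2] at h11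
      · rw [e2] at h11
        exact absurd h11 h10
    -- the exchanged order
    have ho' := k5 o ho h8
    have R' := k6 o (swp h4 o) R ho'
    have hD' : DfO hn P' (swp h4 o) g := by
      refine k2 (swp h4 o) ho' fun i hi l hl hl1 => ?_
      have e1 : l = n - 3 := by omega
      have e3 : i = n - 2 := by omega
      rw [e1, e3, tau_swp1 h4 o]
      exact Or.inr (Or.inl hsta)
    have h11 := k1 (swp h4 o) R' hS hD' (n - 3) (by omega)
    rw [LL_low (by omega) (by omega), Nat.add_sub_cancel, bet_swp1 h4 o] at h11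
    exact h9 h11

/-- **The static chains** where the target has slope one. -/
theorem sta_slope1 (H : PkT hn S P r P' Λ PB) (hTop : TopS n) (hF1 : FZX 1)
    (hF : FZX (n - 1)) (hn4 : n ≤ 4) (hW : ∀ k, 2 ≤ k → k < n → Pool.TOP.RW k) {h : ℝ}
    (hh : 0 ≤ h) (hbig : ∀ o : Od n, ∀ᵐ g : ℝ, RwH H hTop hF h o g → deriv (fun a => P a a) g = 1 →
      BigS hn P P' PB o g)
    (hV : VAll hn hTop hF (TwS n)) {Y : Od n → ℝ → Prop}
    (hY : ∀ o : Od n, ∀ᵐ g : ℝ, g ∈ Gs P r P' Λ o → Y o g)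
    (hMev : ∀ (o : Od n) (l : ℕ), 1 ≤ l → l < n - 1 → MevY hn S P r P' Λ o l
        (fun g => RwH H hTop hF h o g ∧ Xo hn P P' PB o l g ∧ DfO hn P' o g ∧ Y o g))
    (o : Od n) :
    ∀ᵐ g : ℝ, RwH H hTop hF h o g → deriv (fun a => P a a) g = 1 →
      ∀ i < n - 1, StaAt (LL hn P P' o (i + 1)) g := by
  have hw : ∀ o : Od n, ∀ᵐ g : ℝ, RwH H hTop hF h o g →
      deriv (fun a => P a a) g = 1 → ∀ i < n - 1, ThS hn P P' PB o i g := fun o => by
    filter_upwards [hbig o, ths_of H hTop hF] with g k1 k2 R hS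
    exact k2 o R.rwd.mem (k1 R hS)
  refine one_dfo H hTop hF hn4 hw (fun o => ?_) o
  have hc := fun l => one_cnt H hTop hF1 hF hn4 hW hV hh
    (Y := fun o g => DfO hn P' o g ∧ Y o g) hMev o l
  filter_upwards [hw o, ae_all_iff.2 hc, hY o, rg_ths H hTop hF, sta_zero H hTop hF o]
    with g k2 k3 k5 k6 k4 R hS hD
  by_contra hcon
  push Not at hcon
  obtain ⟨i₀, hi₀, hi₀'⟩ := hcon
  have hths := k2 R hS
  have hdg : ∀ i ≤ n - 1, (H.nk hTop hF).dg o i = fun a => LL hn P P' o (i + 1) a a :=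
    fun i hi => by
      funext a
      exact H.dg_eq hTop hF o hi a
  -- the last coordinate which is not static
  obtain ⟨l, hl, hns, hmax⟩ : ∃ l, l < n - 1 ∧ ¬ StaAt (LL hn P P' o (l + 1)) g ∧
      ∀ i, l < i → i < n - 1 → StaAt (LL hn P P' o (i + 1)) g := by
    classical
    obtain ⟨s, hs⟩ : ∃ s : Finset ℕ, ∀ i, i ∈ s ↔ i < n - 1 ∧
        ¬ StaAt (LL hn P P' o (i + 1)) g :=
      ⟨(Finset.range (n - 1)).filter (fun i => ¬ StaAt (LL hn P P' o (i + 1)) g), by simp⟩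
    have hne : s.Nonempty := ⟨i₀, (hs i₀).2 ⟨hi₀, hi₀'⟩⟩
    have hm := (hs _).1 (s.max'_mem hne)
    refine ⟨s.max' hne, hm.1, hm.2, fun i h1 h2 => ?_⟩
    by_contra h3
    exact absurd (s.le_max' i ((hs i).2 ⟨h2, h3⟩)) (by omega)
  have hl1 : 1 ≤ l := by
    by_contra h0
    have : l = 0 := by omega
    rw [this] at hns
    exact hns (k4 R.rwd.mem)
  have hdif : ∀ i ≤ n - 1, DifferentiableAt ℝ (fun a => LL hn P P' o (i + 1) a a) g :=
    fun i hi => by
      rw [← hdg i hi]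
      exact R.rwd.dif i hi
  have hone : ∀ i ≤ n - 1, deriv (fun a => LL hn P P' o (i + 1) a a) g ≤ 1 →
      StaAt (LL hn P P' o (i + 1)) g := fun i hi h1 =>
    sta_of_one (ll_law H.toPk o hi) R.rwd.g0 R.rwd.g1 (ll_le1 H.toPk o hi) (hdif i hi) h1
  have hstN : StaAt P g := by
    have h5 := hone (n - 1) le_rfl
    rw [LL_lst] at h5
    exact h5 hS.le
  have hsta : ∀ i, l < i → i ≤ n - 1 → StaAt (LL hn P P' o (i + 1)) g := fun i h1 h2 => by
    rcases h2.lt_or_eq with h3 | h3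
    · exact hmax i h1 h3
    · rw [h3, LL_lst]
      exact hstN
  rcases k6 o R.rwd.mem l hl.le (hths l hl) with h5 | h5
  · exact hns h5
  refine k3 l R ⟨hstN, hS, hths, ⟨hl1, hl, hdif, fun i hi => ?_, ?_, h5, hsta⟩⟩
    ⟨hD, k5 R.rwd.mem⟩
  · have := R.rwd.lt i hi
    rwa [hdg i hi] at this
  · by_contra h6
    push Not at h6
    exact hns (hone l hl.le h6)

end Pool.MV

namespace Pool.ASM

open MeasureTheory Set Filter Topology
open Pool.Agent.H49.Ent Pool.Agent.H32.Dense Pool.STK Pool.KA Pool.KSAT Pool.K2S Pool.PB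
open Pool.GEN Pool.S6C Pool.GRW Pool.PKG Pool.STAT Pool.PM Pool.R1 Pool.Z4 Pool.CHT
open Pool.ONE (LocE Ext0 Ext rowN_of_ext)
open Pool.TOP (TopS rw_all)
open Pool.LEV (Law Lv)
open Pool.STR (NumI TopW Mac StaAt IsoAt StaU1 ThinAt SteepAt Rle)
open Pool.MIC6
open Pool.ISO (lvN)
open Pool.ZFI (LF)
open Pool.SW (TopC NtO OneS NoTie Rgh Xa Xo TieO)
open Pool.MV (DfO NvU mevY_of sta_slope1)

/-- **The base is static** at the rows whose target has slope one, all classes. -/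
def LSta1 (n : ℕ) : Prop := (∀ k, 2 ≤ k → k < n → Ext0 k) →
  Tol fun η => LocE n η MicRt → AllC n η fun {hn} {_} {P} {_} {P'} {_} {_} H hTop hF h =>
    ∀ o : Od n, ∀ᵐ g : ℝ, RwH H hTop hF h o g → deriv (fun a => P a a) g = 1 →
      ∀ i < n - 1, StaAt (LL hn P P' o (i + 1)) g

/-- **The cell `κ`** at the rows whose target has slope one, all classes. -/
def LCell1 (n : ℕ) (κ : List Kd) : Prop := (∀ k, 2 ≤ k → k < n → Ext0 k) →
  Tol fun η => AllC n η fun {_} {_} {P} {_} {_} {_} {_} H hTop hF h =>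
    CellX H hTop hF h (fun _ g => deriv (fun a => P a a) g = 1) κ

theorem LCellA.o {n : ℕ} {κ : List Kd} (h : LCellA n κ) : LCell1 n κ := fun hi => by
  refine (h hi).mono fun η h1 => ?_
  intro hn hZ hF hTop D hD hD1 hE S P r P' Λ PB H
  exact CellX.of (h1 hn hZ hF hTop D hD hD1 hE S P r P' Λ PB H) _

/-- **The data on the events**, near the windows of the counts where the target has slope one, all
classes. -/
def LMev1 (n : ℕ) : Prop := (∀ k, 2 ≤ k → k < n → Ext0 k) →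
  Tol fun η => LocE n η MicRt →
    AllC n η fun {hn} {S} {P} {r} {P'} {Λ} {PB} H hTop hF h =>
      ∃ Y : Od n → ℝ → Prop, (∀ o : Od n, ∀ᵐ g : ℝ, g ∈ Gs P r P' Λ o → Y o g) ∧
        ∀ (o : Od n) (l : ℕ), 1 ≤ l → l < n - 1 → MevY hn S P r P' Λ o l
          (fun g => RwH H hTop hF h o g ∧ Xo hn P P' PB o l g ∧ DfO hn P' o g ∧ Y o g)

/-- **The variations** of the derivative, in the direction of the coordinate `l`, of the label of the
coordinate `i`, near the windows of the counts where the target has slope one, all classes. -/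
def LNv1 (n l i : ℕ) : Prop := (∀ k, 2 ≤ k → k < n → Ext0 k) →
  Tol fun η => LocE n η MicRt →
    AllC n η fun {hn} {S} {P} {r} {P'} {Λ} {PB} H hTop hF h =>
      ∃ Y : Od n → ℝ → Prop, (∀ o : Od n, ∀ᵐ g : ℝ, g ∈ Gs P r P' Λ o → Y o g) ∧
        ∀ o : Od n, ∀ g ∈ Gs P r P' Λ o, RwH H hTop hF h o g → Xo hn P P' PB o l g →
          DgL hn P P' o g → DfO hn P' o g → Y o g →
          ∀ E ϱ : ℝ, 0 < E → 0 < ϱ →
          (∀ i ≤ n - 1, lvN (P' o.2) (cc hn o.1.1) (n - 1) P i g g + E + 8 * ϱ < 1) →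
          NvU S (cc hn o.1.1) (n - 1) l i (lvN (P' o.2) (cc hn o.1.1) (n - 1) P) E ϱ g

/-- The rough coordinate is almost affine near the windows of the counts. -/
theorem xo_aff {n : ℕ} {hn : 2 ≤ n} {S : PCl n} {P : ℝ → ℝ → ℝ} {r : ℝ → ℝ}
    {P' : ℕ → List (Fin n) × Fin n → ℝ → ℝ → ℝ} {Λ : Finset (Fin n) → Fin n → ℝ → ℝ → ℝ}
    {PB : ℕ → List (Fin n) × Fin n → ℝ → ℝ → ℝ} (H : Pk hn S P r P' Λ) {o : Od n} {l : ℕ}
    {g : ℝ} (hg : g ∈ Gs P r P' Λ o) (hX : Xo hn P P' PB o l g) :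
    0 < deriv (fun a => LL hn P P' o (l + 1) a a) g - 1 ∧
    Pool.ZL.AffA (LF hn P P' o l) g 1 (deriv (fun a => LL hn P P' o (l + 1) a a) g - 1) := by
  have hCf := hX.cfg
  have g0 : 0 < g := hg.1.1.1
  have g1 : g < 1 := hg.1.1.2.1
  refine ⟨by linarith [hCf.one], ?_⟩
  exact Pool.ZL.aff_rg (Z4.ll_law H o hCf.ln.le) g0 g1 (hCf.lt l hCf.ln.le) hCf.rg
    (Pool.STR.dgLo_of (hCf.dif l hCf.ln.le))

/-- **The data on the events from the variations.** -/
theorem lMev1_nv {n : ℕ} (h : ∀ l i, 1 ≤ l → l < n - 1 → l < i → i ≤ n - 1 → LNv1 n l i) :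
    LMev1 n := fun hi => by
  have h1 : Tol fun η => ∀ x : Fin n × Fin n, 1 ≤ (x.1 : ℕ) → (x.1 : ℕ) < n - 1 →
      (x.1 : ℕ) < x.2 → LocE n η MicRt →
      AllC n η fun {hn} {S} {P} {r} {P'} {Λ} {PB} H hTop hF h =>
      ∃ Y : Od n → ℝ → Prop, (∀ o : Od n, ∀ᵐ g : ℝ, g ∈ Gs P r P' Λ o → Y o g) ∧
        ∀ o : Od n, ∀ g ∈ Gs P r P' Λ o, RwH H hTop hF h o g → Xo hn P P' PB o x.1 g →
          DgL hn P P' o g → DfO hn P' o g → Y o g →
          ∀ E ϱ : ℝ, 0 < E → 0 < ϱ →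
          (∀ i ≤ n - 1, lvN (P' o.2) (cc hn o.1.1) (n - 1) P i g g + E + 8 * ϱ < 1) →
          NvU S (cc hn o.1.1) (n - 1) x.1 x.2 (lvN (P' o.2) (cc hn o.1.1) (n - 1) P) E ϱ g := by
    refine Tol.fin fun x => ?_
    by_cases hx : 1 ≤ (x.1 : ℕ) ∧ (x.1 : ℕ) < n - 1 ∧ (x.1 : ℕ) < x.2
    · exact (h x.1 x.2 hx.1 hx.2.1 hx.2.2 (by have := x.2.2; omega) hi).mono fun η k _ _ _ => k
    · exact Tol.of_all fun _ _ _ k1 k2 k3 => absurd ⟨k1, k2, k3⟩ hx
  refine h1.mono fun η k hMic => ?_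
  intro hn hZ hF hTop D hD hD1 hE S P r P' Λ PB H
  have key : ∀ x : Fin n × Fin n, ∃ Y : Od n → ℝ → Prop,
      (∀ o : Od n, ∀ᵐ g : ℝ, g ∈ Gs P r P' Λ o → Y o g) ∧
      (1 ≤ (x.1 : ℕ) → (x.1 : ℕ) < n - 1 → (x.1 : ℕ) < x.2 → ∀ o : Od n, ∀ g ∈ Gs P r P' Λ o,
          RwH H hTop hF ((1 - η D) * D) o g → Xo hn P P' PB o x.1 g →
          DgL hn P P' o g → DfO hn P' o g → Y o g →
          ∀ E ϱ : ℝ, 0 < E → 0 < ϱ →
          (∀ i ≤ n - 1, lvN (P' o.2) (cc hn o.1.1) (n - 1) P i g g + E + 8 * ϱ < 1) →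
          NvU S (cc hn o.1.1) (n - 1) x.1 x.2 (lvN (P' o.2) (cc hn o.1.1) (n - 1) P) E ϱ g) := by
    intro x
    by_cases hx : 1 ≤ (x.1 : ℕ) ∧ (x.1 : ℕ) < n - 1 ∧ (x.1 : ℕ) < x.2
    · obtain ⟨Y, k1, k2⟩ := k x hx.1 hx.2.1 hx.2.2 hMic hn hZ hF hTop D hD hD1 hE S P r P' Λ PB H
      exact ⟨Y, k1, fun _ _ _ => k2⟩
    · exact ⟨fun _ _ => True, fun _ => Eventually.of_forall fun _ _ => trivial,
        fun k1 k2 k3 => absurd ⟨k1, k2, k3⟩ hx⟩
  choose Y hY hNV using key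
  refine ⟨fun o g => DgL hn P P' o g ∧ ∀ x, Y x o g, fun o => ?_, fun o l hl1 hl => ?_⟩
  · filter_upwards [ae_all_iff.2 fun x => hY x o, H.toPk.dgL_ae] with g k1 k2 hg
    exact ⟨k2 hg.1.1.1 hg.1.1.2.1 o, fun x => k1 x hg⟩
  · refine mevY_of H.toPk hTop hF hl (fun g hg hX => ?_) fun g hg hX E ϱ hE' hϱ hroom i hi1 hi2 =>
      hNV (⟨l, by omega⟩, ⟨i, by omega⟩) hl1 hl hi1 o g hg hX.1 hX.2.1 hX.2.2.2.1 hX.2.2.1
        (hX.2.2.2.2 _) E ϱ hE' hϱ hroom
    obtain ⟨R, hXo, hDf, hDg, hY'⟩ := hX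
    exact ⟨hDg, hDf, _, (xo_aff H.toPk hg hXo).2⟩

/-- **The variations for `c 0, c 1; c 2`.** -/
theorem lNv1_12 {n : ℕ} (h3 : 3 ≤ n) : LNv1 n 1 2 := fun _ => Tol.of_all fun η _ _ _ => by
  intro hn hZ hF hTop D hD hD1 hE S P r P' Λ PB H
  refine ⟨fun o g => HasDerivAt (fun v => LF hn P P' o 0 v v) 1 g, fun o => ?_,
    fun o g hg R hX hDg hDf hY E ϱ hE hϱ hroom => ?_⟩
  · filter_upwards [one_act H.toPk hTop hF] with g k hg
    exact k o hg
  · obtain ⟨ht, hA⟩ := xo_aff H.toPk hg hX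
    exact Pool.NVX.nvU_12 H.toPk hTop hF h3 hg hDg hDf hY hA ht hE hϱ hroom

/-- **The data on the events in dimension three.** -/
theorem lMev1_three : LMev1 3 := lMev1_nv fun l i h1 h2 h3 h4 => by
  have e1 : l = 1 := by omega
  have e2 : i = 2 := by omega
  subst e1 e2
  exact lNv1_12 le_rfl

/-- In dimension four two leaves are left. -/
theorem lMev1_four (h13 : LNv1 4 1 3) (h23 : LNv1 4 2 3) : LMev1 4 :=
  lMev1_nv fun l i h1 h2 h3 h4 => by
    have e1 : l = 1 ∨ l = 2 := by omega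
    have e2 : i = 2 ∨ i = 3 := by omega
    rcases e1 with rfl | rfl <;> rcases e2 with rfl | rfl
    · exact lNv1_12 (by norm_num)
    · exact h13
    · omega
    · exact h23

/-- **The base is static at the rows whose target has slope one**, from the cells before the target,
no boxes with more than one contact coordinate, and the data on the events. -/
theorem lSta1_of {n : ℕ} (hn4 : n ≤ 4)
    (hC : ∀ κ : List Kd, κ.length + 3 ≤ n → LCell1 n (Kd.one :: κ)) (hA : 3 ≤ n → LTwA n)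
    (hM : 3 ≤ n → LMev1 n) : LSta1 n := fun hi => by
  rcases Nat.lt_or_ge n 3 with h2 | h3
  · refine Tol.of_all fun η _ _ _ => ?_
    intro hn hZ hF hTop D hD hD1 hE S P r P' Λ PB H o
    filter_upwards [sta_zero H hTop hF o] with g k R _ i hi
    obtain rfl : i = 0 := by omega
    exact k R.rwd.mem
  · have hfin : Finite {κ : List Kd // κ.length + 3 ≤ n} := by
      have h4 := cells_fin n
      refine Finite.of_injective (fun κ : {κ : List Kd // κ.length + 3 ≤ n} =>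
        (⟨κ.1, by have := κ.2; omega⟩ : {κ : List Kd // κ.length + 2 ≤ n})) fun a b hab => ?_
      exact Subtype.ext (Subtype.mk.inj hab)
    refine (((Tol.fin fun κ : {κ : List Kd // κ.length + 3 ≤ n} => hC κ.1 κ.2 hi).and
      (hM h3 hi)).and (Tol.le 1 one_pos)).mono fun η h hMic => ?_
    obtain ⟨⟨h1, h4⟩, h6⟩ := h
    intro hn hZ hF hTop D hD hD1 hE' S P r P' Λ PB H
    have e1 := h6 D hD
    obtain ⟨Y, hY, hMev⟩ := h4 hMic hn hZ hF hTop D hD hD1 hE' S P r P' Λ PB H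
    have hW := rw_all hZ fun k k1 k2 => rowN_of_ext (hi k k1 k2)
    refine sta_slope1 H hTop (hZ 1 le_rfl (by omega)) hF hn4 hW
      (mul_nonneg (by linarith) hD.le) (fun o => ?_) (vAll_two (hA h3) hi hn hZ hF hTop) hY hMev
    exact TwoX.big (fun i a1 a2 => twoX_of H hTop hF a1 (by omega) fun κ hκ =>
      h1 ⟨κ, by omega⟩ hn hZ hF hTop D hD hD1 hE' S P r P' Λ PB H) o

/-- **Dimension two.** -/
theorem lSta1_two : LSta1 2 :=
  lSta1_of (by norm_num) (fun _ h => absurd h (by omega)) (fun h => absurd h (by norm_num))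
    fun h => absurd h (by norm_num)

/-- **Dimension three**: only the absence of thin windows over two contact coordinates is needed. -/
theorem lSta1_three (hV : LVoA 3) : LSta1 3 := by
  refine lSta1_of (by norm_num) (fun κ hκ => ?_) (fun _ => lTwA_three hV) fun _ => lMev1_three
  match κ with
  | [] => exact (lCellA_one 3).o
  | _ :: _ => exact absurd hκ (by simp)

/-- **Dimension four.** -/
theorem lSta1_four (c11 : LCell1 4 [Kd.one, Kd.one]) (cT : LCellA 4 [Kd.one, Kd.thin])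
    (cS : LCellA 4 [Kd.one, Kd.sta]) (hA : LTwA 4) (h13 : LNv1 4 1 3) (h23 : LNv1 4 2 3) :
    LSta1 4 := by
  refine lSta1_of le_rfl (fun κ hκ => ?_) (fun _ => hA) fun _ => lMev1_four h13 h23
  match κ with
  | [] => exact (lCellA_one 4).o
  | [k] =>
    cases k with
    | one => exact c11
    | thin => exact cT.o
    | sta => exact cS.o
  | _ :: _ :: _ => exact absurd hκ (by simp)

/-- **All coordinates of the base are static** at all rows, all classes. -/
theorem noRa_of {n : ℕ} (h1 : LNor n) (h2 : LSta1 n) (hi : ∀ k, 2 ≤ k → k < n → Ext0 k) :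
    Tol fun η => LocE n η MicRt → AllC n η fun H hTop hF h => NoRa H hTop hF (H.rle h) := by
  refine ((h1 hi).and (h2 hi)).mono fun η h hMic => ?_
  intro hn hZ hF hTop D hD hD1 hE S P r P' Λ PB H
  exact (h.1 hMic hn hZ hF hTop D hD hD1 hE S P r P' Λ PB H).noRa
    (h.2 hMic hn hZ hF hTop D hD hD1 hE S P r P' Λ PB H)

end Pool.ASM
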