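import Pool.Agent.H77.Z4.Nor6

/-!
# The count with no loss, for the slopes of the slots up to the order

`CokS`: as `Cok`, only for the families of slopes which have the same sum as the slopes of the slots
(for `n ≤ 4` these are the slopes of the slots up to the order). `rows_cs`, `zw_cs`, `nore_cnt0S`,
`hc0_cS`: the rows, the inequality between two windows and the count with no loss in this form.
-/

set_option autoImplicit false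

namespace Pool.PKG

open MeasureTheory Set Filter Topology
open Pool.Agent.H49.Ent Pool.Agent.H32.Dense Pool.STK Pool.KA Pool.KSAT Pool.K2S Pool.PB
open Pool.GEN Pool.S6C Pool.STAT Pool.CHT Pool.GRW Pool.ONE Pool.STA Pool.EXW
open Pool.LBT (LSys ThrOf)
open Pool.LEV (Law Lv)
open Pool.ALL (RateOf)
open Pool.TOP (TopS)
open Pool.STR (NumI)
open Pool.SW (Rgh rgh_of rgFull_ae dia_der)
open Pool.ZFN (RgUp DgLo RgFull)
open Finset (range)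

variable {n : ℕ} {hn : 2 ≤ n} {S : PCl n} {P : ℝ → ℝ → ℝ} {r : ℝ → ℝ}
  {P' : ℕ → List (Fin n) × Fin n → ℝ → ℝ → ℝ} {Λ : Finset (Fin n) → Fin n → ℝ → ℝ → ℝ}
  {PB : ℕ → List (Fin n) × Fin n → ℝ → ℝ → ℝ}

/-- **The slopes of the slots** have the property `C`: every family of slopes which begins with `1`
and continues with slopes `τ j`, with the sum of the slopes of the slots. -/
def CokS (C : (Fin (n - 1) → ℝ) → ℝ → Prop) (τ : ℕ → ℝ) (σ : ℝ) : Prop :=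
  ∀ s : ℕ → ℝ, s 0 = 1 → (∀ i, 1 ≤ i → i < n - 1 → ∃ j, 1 ≤ j ∧ j < n - 1 ∧ s i = τ j) →
    ∑ i ∈ range (n - 1), s i = 1 + ∑ i ∈ range (n - 2), τ (i + 1) → C (fun i => s i) σ

theorem CokS.congr {C : (Fin (n - 1) → ℝ) → ℝ → Prop} {τ τ' : ℕ → ℝ} {σ : ℝ} (h : CokS C τ σ)
    (hτ : ∀ j, 1 ≤ j → j < n - 1 → τ' j = τ j) : CokS C τ' σ := by
  intro s h0 h1 h2
  refine h s h0 (fun i i1 i2 => ?_) ?_
  · obtain ⟨j, j1, j2, j3⟩ := h1 i i1 i2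
    exact ⟨j, j1, j2, by rw [j3, hτ j j1 j2]⟩
  · rw [h2]
    refine congrArg _ (Finset.sum_congr rfl fun i hi => ?_)
    have := Finset.mem_range.1 hi
    exact hτ _ (by omega) (by omega)

/-- **The rows of the rough windows** of a class with known numbers of the slots. -/
theorem rows_cs (hTop : TopS n) (hF : FZX (n - 1)) (hn4 : n ≤ 4)
    (hW : ∀ k, 2 ≤ k → k < n → Pool.TOP.RW k) {C : (Fin (n - 1) → ℝ) → ℝ → Prop}
    (hCm : MeasurableSet {p : (Fin (n - 1) → ℝ) × ℝ | C p.1 p.2}) (hV : VAll hn hTop hF C)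
    {s : Fin n → ℝ} {d : ℕ → ℝ} {al : ℝ} {g₀ : ℝ → ℝ} {e₀ : ℝ} {K₀ : ℕ} {N : ℚ → ℚ → ℝ}
    (hal : 0 < al) (hg₀ : ∀ ε : ℝ, 0 < ε → 0 < g₀ ε) (hC : ClX s d al g₀ e₀ K₀ N S)
    (hT : ThrOf (tgs (lst hn)) S (fun _ => P)) (hr : RateOf S (lst hn) r)
    {b₁ : ℝ} {X : Set ℝ} {q : ℕ → ℝ → ℝ}
    (hX : ∀ y : Fct n b₁ X q, Bas S (fun J F A => ¬ Bdf 8 b₁ X q y J F A))
    {E : Set ℝ} {σ : ℝ → ℝ}
    (hE : ∀ᵐ v : ℝ, v ∈ E → (0 < v ∧ v < b₁ ∧ (∀ δ : ℝ, 0 < δ → ∃ x ∈ X, v < x ∧ x < v + δ) ∧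
      ∀ δ : ℝ, 0 < δ → ∃ x ∈ X, v - δ < x ∧ x < v) ∧
      (∀ i, 1 ≤ i → i < n - 1 → DifferentiableAt ℝ (q i) v ∧ v ≤ q i v ∧ q i v ≤ 1) ∧
      CokS C (fun j => deriv (q j) v) (σ v))
    (hR : ∀ v ∈ E, ∃ D : ℝ, 0 < D ∧ RgUp P v D (σ v) ∧ DgLo P v D (σ v)) :
    RgFull P r 0 E := by
  obtain ⟨S₁, P', Λ, PB, hsub, -, H⟩ := pkT_ex hn hal hg₀ hC hT hr
  have hQ : SlqX S₁ 8 b₁ X q := (slqX_of hX).sub hsub
  have hlaw := H.tgs.law ()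
  refine rgFull_ae hlaw (PkT.rgFull_c hCm H hTop hF (hV _ _ _ _ _ _ H)) ?_
  obtain ⟨E', hE'⟩ : ∃ E' : Set ℝ, E' = {v | (0 < v ∧ v < b₁ ∧
      (∀ δ : ℝ, 0 < δ → ∃ x ∈ X, v < x ∧ x < v + δ) ∧
      ∀ δ : ℝ, 0 < δ → ∃ x ∈ X, v - δ < x ∧ x < v) ∧
      (∀ i, 1 ≤ i → i < n - 1 → DifferentiableAt ℝ (q i) v ∧ v ≤ q i v ∧ q i v ≤ 1)} := ⟨_, rfl⟩
  have hmem : ∀ v ∈ E', (0 < v ∧ v < b₁ ∧
      (∀ δ : ℝ, 0 < δ → ∃ x ∈ X, v < x ∧ x < v + δ) ∧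
      ∀ δ : ℝ, 0 < δ → ∃ x ∈ X, v - δ < x ∧ x < v) ∧
      (∀ i, 1 ≤ i → i < n - 1 → DifferentiableAt ℝ (q i) v ∧ v ≤ q i v ∧ q i v ≤ 1) := by
    intro v hv
    rw [hE'] at hv
    exact hv
  have hb := H.base_slots hTop hF hn4 hW (R := 8) (b₁ := b₁) (by norm_num) (X := X) (E := E')
    (fun v hv => (hmem v hv).1) (q := q)
    (fun i h1 h2 => ae_of_all _ fun v hv => ((hmem v hv).2 i h1 h2).1)
    (fun i h1 h2 v hv => ((hmem v hv).2 i h1 h2).2.1)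
    (fun i h1 h2 v hv => ((hmem v hv).2 i h1 h2).2.2) hQ
  have hs := H.base_slopesX hTop hF hW (R := 8) (b₁ := b₁) (by norm_num) (X := X) (E := E')
    (fun v hv => (hmem v hv).1) (q := q)
    (fun i h1 h2 => ae_of_all _ fun v hv => ((hmem v hv).2 i h1 h2).1)
    (fun i h1 h2 v hv => ((hmem v hv).2 i h1 h2).2.1)
    (fun i h1 h2 v hv => ((hmem v hv).2 i h1 h2).2.2) hQ
  filter_upwards [hE, hb, hs] with v h1 h2 h6 hv hDσ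
  obtain ⟨k1, k2, k3⟩ := h1 hv
  obtain ⟨D, -, hU, hL⟩ := hR v hv
  have hvE : v ∈ E' := by
    rw [hE']
    exact ⟨k1, k2⟩
  refine ⟨rgh_of hU hL, fun o ho => ?_⟩
  rw [(dia_der hU hL).deriv]
  obtain ⟨h4, h5⟩ := h2 hvE o ho
  exact k3 (fun i => deriv ((H.nk hTop hF).dg o i) v) h4 h5 (h6 hvE o ho)

end Pool.PKG

namespace Pool.SW

open MeasureTheory Set Filter Topology
open Finset (range univ)
open Pool.Agent.H49.Ent Pool.Agent.H32.Dense Pool.STK Pool.KA Pool.KSAT Pool.K2S Pool.PB Pool.S6C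
open Pool.GEN Pool.ONE Pool.EXW Pool.TOP Pool.ZCL Pool.ZLC Pool.ZFN Pool.ZCO Pool.PKG Pool.CHT
open Pool.Z4
open Pool.LBT (ThrOf)
open Pool.LEV (Law)
open Pool.ALL (RateOf)
open Pool.BSM (qz qz_ge qz_le qz_deriv fct_A fct_B1 qz_le1 Xz xz_cnt xz_lim Lbp lbp_ae psn_grid)
open Pool.PSI (PsN co)

section

variable {n : ℕ} {hn : 2 ≤ n} {S : PCl n} {P : ℝ → ℝ → ℝ} {r : ℝ → ℝ}
  {P' : ℕ → List (Fin n) × Fin n → ℝ → ℝ → ℝ} {Λ : Finset (Fin n) → Fin n → ℝ → ℝ → ℝ}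
  {o : Od n} {l : ℕ} {w₁ : ℝ} {δ : ℚ} {M : MDat} {Vd : Rq → Prop} {β : ℕ → ℝ → ℝ → ℝ}
  {lamf LU : ℝ → ℝ → ℝ}

/-- The windows of the set, in the units of the zoom. -/
theorem ae_slots_s (Z : Zwd hn P r P' Λ o l w₁ δ M Vd β lamf LU) (H : Pk hn S P r P' Λ) {G : Set ℝ}
    (hGm : MeasurableSet G)
    (hgrid : ∀ x : ℝ, Lbp G x → ∀ δ : ℝ, 0 < δ → (∃ r : ℚ, w₁ + r ∈ G ∧ x < w₁ + r ∧
      w₁ + r < x + δ) ∧ ∃ r : ℚ, w₁ + r ∈ G ∧ x - δ < w₁ + r ∧ w₁ + r < x) {xs : ℝ}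
    (hx0 : 0 ≤ xs) (hxE : β (n - 1) (w₁ + δ) (w₁ + δ) + xs ≤ 1) {A : Set ℝ} (hAG : A ⊆ G)
    {C : (Fin (n - 1) → ℝ) → ℝ → Prop} {σ : ℝ → ℝ}
    (hCA : ∀ x ∈ A, w₁ < x → x < w₁ + δ →
      CokS C (fun j => deriv (fun v => LL hn P P' o (ix l j + 1) v v) x) (σ x)) :
    ∀ᵐ v : ℝ, v ∈ {v | rho w₁ v ∈ A ∩ Ioo w₁ (w₁ + δ)} → (0 < v ∧ v < rin w₁ (w₁ + δ) ∧
      (∀ ε : ℝ, 0 < ε → ∃ x ∈ Xz w₁ δ G, v < x ∧ x < v + ε) ∧
      ∀ ε : ℝ, 0 < ε → ∃ x ∈ Xz w₁ δ G, v - ε < x ∧ x < v) ∧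
      (∀ i, 1 ≤ i → i < n - 1 → DifferentiableAt ℝ (qz hn P P' o l w₁ xs i) v ∧
        v ≤ qz hn P P' o l w₁ xs i v ∧ qz hn P P' o l w₁ xs i v ≤ 1) ∧
      CokS C (fun j => deriv (qz hn P P' o l w₁ xs j) v) (σ (rho w₁ v)) := by
  have hw0 : 0 < w₁ := Z.g1.1.1.1
  have hw1 : w₁ < 1 := Z.g1.1.1.2.1
  have hb1 : w₁ + δ < 1 := Z.gb.1.1.2.1
  have h01 : 0 < 1 - w₁ := by linarith
  have hdif : ∀ᵐ x : ℝ, ∀ i : ℕ, i < n - 1 → 0 < x → x < 1 →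
      DifferentiableAt ℝ (fun v => LL hn P P' o (ix l i + 1) v v) x := by
    refine ae_all_iff.2 fun i => ?_
    by_cases hi : i < n - 1
    · filter_upwards [Pool.STR.dia_ae (Pool.PSI.ll_law (o := o) H (ix_le (l := l) hi)).1]
        with x h1 _ h2 h3
      exact h1 h2 h3
    · exact ae_of_all _ fun x h => absurd h hi
  filter_upwards [ae_rho hw1 (lbp_ae hGm), ae_rho hw1 hdif] with v h1 h2 hv
  have hvA : rho w₁ v ∈ A := hv.1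
  have hv1 : w₁ < rho w₁ v := hv.2.1
  have hv2 : rho w₁ v < w₁ + δ := hv.2.2
  have hr : rho w₁ v = w₁ + (1 - w₁) * v := rfl
  have v0 : 0 < v := by
    rw [hr] at hv1
    have h3 : 0 < (1 - w₁) * v := by linarith
    exact (mul_pos_iff_of_pos_left h01).1 h3
  have v1 : v < rin w₁ (w₁ + δ) := by
    unfold rin
    rw [lt_div_iff₀ h01]
    rw [hr] at hv2
    linarith
  have v2 : v ≤ 1 := by
    rw [hr] at hv2
    have h3 : (1 - w₁) * v < (1 - w₁) * 1 := by linarith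
    exact (lt_of_mul_lt_mul_left h3 h01.le).le
  obtain ⟨k1, k2⟩ := xz_lim hw1 hv1 hv2 (hgrid _ (h1 (hAG hvA)))
  have hder : ∀ i, i < n - 1 → HasDerivAt (qz hn P P' o l w₁ xs i)
      (deriv (fun v => LL hn P P' o (ix l i + 1) v v) (rho w₁ v)) v := fun i hi =>
    qz_deriv hw1 (h2 i hi (by linarith) (by linarith)).hasDerivAt
  refine ⟨⟨v0, v1, k1, k2⟩, fun i hi1 hi2 => ⟨(hder i hi2).differentiableAt,
    qz_ge H hw0 hw1 hx0 hi2 v0.le v2, ?_⟩, ?_⟩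
  · -- the numbers are at most one
    have e1 := Pool.BSM.qz_mul (hn := hn) (P := P) (P' := P') (o := o) (l := l) (xs := xs) hw1 i v
    have h3 := Z.num _ (Or.inr rfl) _ (ix_le (l := l) hi2)
    rw [Z.bet _ (ix_le (l := l) hi2)] at h3
    have h4 := (Pool.PSI.ll_law (o := o) H (ix_le (l := l) hi2)).1.mono (a := rho w₁ v)
      (w := rho w₁ v) (a' := w₁ + δ) (w' := w₁ + δ) (by linarith) le_rfl hv2.le hv2.le le_rfl
      hb1.le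
    have h6 := Z.ok.ϱ0
    have h7 : qz hn P P' o l w₁ xs i v * (1 - w₁) ≤ 1 * (1 - w₁) := by
      rw [e1]
      split_ifs with h8
      · have h9 : ix l i = n - 1 := by
          have := Z.ln
          unfold ix
          rw [if_neg (by omega)]
          omega
        have h10 := Z.bet (n - 1) le_rfl (w₁ + δ) (w₁ + δ)
        rw [h9] at h4 ⊢
        linarith
      · have h9 := Z.ok.E0
        linarith
    exact le_of_mul_le_mul_right h7 h01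
  · exact (hCA _ hvA hv1 hv2).congr fun j _ hj2 => (hder j hj2).deriv

/-- **The inequality between two windows** with no loss, from the data on the events of the class. -/
theorem zw_cs (Z : Zwd hn P r P' Λ o l w₁ δ M Vd β lamf LU) (H : Pk hn S P r P' Λ)
    (hTop : Pool.TOP.TopS n) (hF1 : FZX 1) (hF : FZX (n - 1)) (hn4 : n ≤ 4)
    (hW : ∀ k, 2 ≤ k → k < n → RW k) {C : (Fin (n - 1) → ℝ) → ℝ → Prop}
    (hCm : MeasurableSet {p : (Fin (n - 1) → ℝ) × ℝ | C p.1 p.2}) (hV : VAll hn hTop hF C)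
    {s : Fin n → ℝ} {d : ℕ → ℝ} {al : ℝ} {g₀ : ℝ → ℝ} {e₀ : ℝ} {K₀ : ℕ} {N : ℚ → ℚ → ℝ}
    (hal : 0 < al) (hg₀ : ∀ ε : ℝ, 0 < ε → 0 < g₀ ε) (hC : ClX s d al g₀ e₀ K₀ N S)
    {E₁ : ℝ} (hE₁ : 0 ≤ E₁) (hE : β (n - 1) (w₁ + δ) (w₁ + δ) + E₁ < 1)
    (hVd : ∀ q, Vd q → q.w ≤ q.a ∧ q.a ≤ 1)
    (hM₀ : MEvt S M w₁ E₁ (cc hn o.1.1) (n - 1) l β Vd)
    {G : Set ℝ} (hG : G ⊆ Gs P r P' Λ o) (hGm : MeasurableSet G)
    (hgrid : ∀ x : ℝ, Lbp G x → ∀ δ : ℝ, 0 < δ → (∃ r : ℚ, w₁ + r ∈ G ∧ x < w₁ + r ∧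
      w₁ + r < x + δ) ∧ ∃ r : ℚ, w₁ + r ∈ G ∧ x - δ < w₁ + r ∧ w₁ + r < x)
    (hlam : ∀ x : ℚ, 0 < x → x < δ → w₁ + x ∈ G → lamf (w₁ + x) (w₁ + x) = 0)
    {A : Set ℝ} {σ : ℝ → ℝ} {s₀ : ℝ} (hs : 1 < s₀) (hAG : A ⊆ G)
    (hA : ∀ x ∈ A, w₁ < x → x < w₁ + δ → s₀ ≤ σ x ∧ LL hn P P' o (l + 1) x x < 1 ∧
      RgUp LU x (LL hn P P' o (l + 1) x x) (σ x) ∧
      DgLo (LL hn P P' o (l + 1)) x (LL hn P P' o (l + 1) x x) (σ x) ∧
      ContinuousAt (fun v => LL hn P P' o (l + 1) v v) x ∧ Nogap (Gs P r P' Λ o) x)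
    (hCA : ∀ x ∈ A, w₁ < x → x < w₁ + δ →
      CokS C (fun j => deriv (fun v => LL hn P P' o (ix l j + 1) v v) x) (σ x)) :
    ENNReal.ofReal ((1 - 0) * s₀) * volume (A ∩ Ioo w₁ (w₁ + δ)) ≤
      ENNReal.ofReal (LL hn P P' o (l + 1) (w₁ + δ) (w₁ + δ) - LL hn P P' o (l + 1) w₁ w₁ -
        (P (w₁ + δ) (w₁ + δ) - P w₁ w₁ - (r (P (w₁ + δ) (w₁ + δ)) - r (P w₁ w₁)))) := by
  have hw0 : 0 < w₁ := Z.g1.1.1.1
  have hw1 : w₁ < 1 := Z.g1.1.1.2.1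
  have hb1 : w₁ + δ < 1 := Z.gb.1.1.2.1
  have h01 : 0 < 1 - w₁ := by linarith
  have hrin : rin w₁ (w₁ + δ) ≤ 1 := by
    unfold rin
    rw [div_le_one h01]
    linarith
  have Z' := Z.co
  have hpsn := Zwd_psn Z H hG hlam
  have key : ∀ xs : ℝ, 0 ≤ xs → β (n - 1) (w₁ + δ) (w₁ + δ) + xs ≤ 1 → ∀ {Req : Type 1} {R : Req → DtP n},
      ZBun hn S P r P' Λ o l w₁ (w₁ + δ) xs R (Ngr w₁ δ) LU →
      (∀ y : Fct n (rin w₁ (w₁ + δ)) (Xz w₁ δ G) (qz hn P P' o l w₁ xs), ∃ q : Req,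
        ZPr S w₁ (ez hn o.1.1 l) (R q)
          (fun J F B => ¬ Bdf 8 (rin w₁ (w₁ + δ)) (Xz w₁ δ G) (qz hn P P' o l w₁ xs) y J F B)) →
      ENNReal.ofReal ((1 - 0) * s₀) * volume (A ∩ Ioo w₁ (w₁ + δ)) ≤
        ENNReal.ofReal (LL hn P P' o (l + 1) (w₁ + δ) (w₁ + δ) - LL hn P P' o (l + 1) w₁ w₁ -
          (P (w₁ + δ) (w₁ + δ) - P w₁ w₁ - (r (P (w₁ + δ) (w₁ + δ)) - r (P w₁ w₁)))) := by
    intro xs hx0 hxE Req R B hfct
    have hcnt : Countable (Fct n (rin w₁ (w₁ + δ)) (Xz w₁ δ G) (qz hn P P' o l w₁ xs)) :=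
      fct_cnt _ (xz_cnt hw1 δ G) _
    refine zw_x Z H hF1 hW hal hg₀ hC hx0 B hs zero_le_one hA
      (Ψ := Bdf 8 (rin w₁ (w₁ + δ)) (Xz w₁ δ G) (qz hn P P' o l w₁ xs))
      (fun y => bdf_upr _ _ _ _ y) hfct fun S' P₁ r₁ hC₁ hX₁ hT₁ hr₁ hE₁' => ?_
    refine rows_cs (σ := fun v => σ (rho w₁ v)) hTop hF hn4 hW hCm hV hal
      (fun x hx => lt_min (hg₀ _ (half_pos hx)) one_pos) hC₁ hT₁ hr₁ hX₁
      (ae_slots_s Z H hGm hgrid hx0 hxE hAG hCA) fun v hv => ?_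
    obtain ⟨-, -, -, D, hD, hU, hL⟩ := hE₁' v hv
    exact ⟨D, hD, hU, hL⟩
  rcases zbun_or' Z H hTop hF hC.ne hE₁ hE hVd hM₀ with hB | ⟨xs, hx0, hx1, -, hB⟩
  · have h3 := Z.num _ (Or.inr rfl) (n - 1) le_rfl
    have h4 := Z.ok.E0
    have h5 := Z.ok.ϱ0
    refine key 0 le_rfl (by linarith) hB fun y => ?_
    exact fct_A H hF Z.ln hw0 hw1 hrin Z'.ok.E0 Z'.ok.ϱ0 Z'.ok.d0 hpsn y
  · have h3 : β (n - 1) (w₁ + δ) (w₁ + δ) + xs ≤ 1 := by linarith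
    refine key xs hx0 h3 hB fun y => ?_
    refine fct_B1 (M := co M (n - 1)) H hF Z.ln hw0 hw1 hrin hx0 Z'.ok.E0 Z'.ok.ϱ0 Z'.ok.d0
      hpsn (fun x hx i hi => ?_) y
    refine qz_le1 (M := co M (n - 1)) hw1 Z'.ok.E0 Z'.ok.ϱ0 ?_ (hpsn x hx).2 hi
    have h9 : ix l (n - 2) = n - 1 := by
      have := Z.ln
      unfold ix
      rw [if_neg (by omega)]
      omega
    obtain ⟨r', h1, h2, -, h4⟩ := hx
    have h1' : (0 : ℝ) < r' := by exact_mod_cast h1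
    have h2' : (r' : ℝ) < δ := by exact_mod_cast h2
    rw [h9, h4]
    have h5 := (Pool.PSI.ll_law (o := o) H (le_refl (n - 1))).1.mono (a := w₁ + r') (w := w₁ + r')
      (a' := w₁ + δ) (w' := w₁ + δ) (by linarith) le_rfl (by linarith) (by linarith) le_rfl hb1.le
    have h10 := Z.bet (n - 1) le_rfl (w₁ + δ) (w₁ + δ)
    linarith

end

end Pool.SW

namespace Pool.SW

open MeasureTheory Set Filter Topology
open Finset (range univ)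
open Pool.Agent.H49.Ent Pool.Agent.H32.Dense Pool.STK Pool.KA Pool.KSAT Pool.K2S Pool.PB Pool.S6C
open Pool.GEN Pool.ONE Pool.EXW Pool.TOP Pool.ZCL Pool.ZLC Pool.ZFN Pool.ZCO Pool.PKG Pool.CHT
open Pool.Z4 Pool.ZL
open Pool.LBT (ThrOf)
open Pool.LEV (Law)
open Pool.ALL (RateOf)
open Pool.ZFI (LF ll_law ll_bd01 aff_der aff_dg right_ae zwd_of)

variable {n : ℕ} {hn : 2 ≤ n} {S : PCl n} {P : ℝ → ℝ → ℝ} {r : ℝ → ℝ}
  {P' : ℕ → List (Fin n) × Fin n → ℝ → ℝ → ℝ} {Λ : Finset (Fin n) → Fin n → ℝ → ℝ → ℝ}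
  {PB : ℕ → List (Fin n) × Fin n → ℝ → ℝ → ℝ}

/-- **The count with no loss**, with the data on the events only near the windows with `X`. -/
theorem nore_cnt0S (H : Pk hn S P r P' Λ) (hTop : Pool.TOP.TopS n) (hF1 : FZX 1)
    (hF : FZX (n - 1)) (hn4 : n ≤ 4) (hW : ∀ k, 2 ≤ k → k < n → RW k)
    {C' : (Fin (n - 1) → ℝ) → ℝ → Prop}
    (hCm : MeasurableSet {p : (Fin (n - 1) → ℝ) × ℝ | C' p.1 p.2}) (hV : VAll hn hTop hF C')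
    {s : Fin n → ℝ} {d : ℕ → ℝ} {al : ℝ} {g₀ : ℝ → ℝ} {e₀ : ℝ} {K₀ : ℕ} {N : ℚ → ℚ → ℝ}
    (hal : 0 < al) (hg₀ : ∀ ε : ℝ, 0 < ε → 0 < g₀ ε) (hC : ClX s d al g₀ e₀ K₀ N S)
    {o : Od n} {l : ℕ} (hl1 : 1 ≤ l) (hl : l < n - 1) {X : ℝ → Prop}
    (hMev : MevY hn S P r P' Λ o l X) :
    ∀ᵐ g : ℝ, g ∈ Gs P r P' Λ o → (∃ la t : ℕ → ℝ, Pool.ZFI.Cfg hn P P' o l g la t ∧ la l = 1) →
      CokS C' (fun j => deriv (fun v => LL hn P P' o (ix l j + 1) v v) g)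
        (deriv (fun v => LL hn P P' o (l + 1) v v) g) → X g →
      deriv (fun v => P v v) g * (1 - deriv r (P g g)) ≤ 0 := by
  have hmain := cntY H hTop hF hl le_rfl one_pos
    (Φ := fun g la _ => (la l = 1 ∧
      CokS C' (fun j => deriv (fun v => LL hn P P' o (ix l j + 1) v v) g)
      (deriv (fun v => LL hn P P' o (l + 1) v v) g)) ∧ X g) (o := o) ?_
  · filter_upwards [hmain] with g h1 hg hcf hck hX
    obtain ⟨la, t, h2, h3⟩ := hcf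
    have h5 := h1 hg ⟨la, t, h2, ⟨h3, hck⟩, hX⟩ (by
      have h4 := h2.t0
      rw [(aff_der (h2.aff l le_rfl (by omega))).deriv, h3]
      linarith)
    rwa [zero_mul] at h5
  · rintro gap hgap g hg ⟨_, _, _, _, hX⟩
    obtain ⟨C₀, hC₀, h0⟩ := hMev gap hgap g hg hX
    refine ⟨C₀, hC₀, fun C hCC lam T rho V hrho hE => ?_⟩
    have hC1 : (1 : ℝ) ≤ C := by exact_mod_cast hC₀.trans hCC
    obtain ⟨ϱ, hϱ, h1⟩ := h0 C hCC lam T rho V hrho hE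
    refine ⟨ϱ, hϱ, fun δ hδ hδϱ => ?_⟩
    obtain ⟨B, hB, h2⟩ := h1 δ hδ hδϱ
    have hGm : MeasurableSet (Gs P r P' Λ o ∩ Eg (LF hn P P' o) l n lam T (epg n C gap) rho) :=
      (H.gs_meas o).inter (eg_meas (fun i _ hin => ll_law H hin) (ll_bd01 H l) (V.e0 hC1).le)
    refine ⟨B, hB, ?_⟩
    filter_upwards [h2, right_ae (Gs P r P' Λ o), Pool.BSM.grid_lb hGm]
      with w₁ h2 hR hgr k0 k1 k2 k3 k4 k5 k6 A s₀ hs₀ hA
    obtain ⟨a₀, w₀, b, B, h01, hδa, har, M, Vd, β, E₁, hβ, hMO, hnum, hVV, hE0, hE1, hVd, hME⟩ :=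
      h2 k0 k1 k2 k3 k4 k5 k6
    have Z := zwd_of H hl1 hl V hC1 hδ B hδa.le har k1.1 k1.2 k2.1 k2.2 (hR k1.1) hβ hMO hnum hVV
    have hδ0 : (0 : ℝ) < δ := by exact_mod_cast hδ
    refine zw_cs Z H hTop hF1 hF hn4 hW hCm hV hal hg₀ hC hE0 hE1 hVd hME (fun x hx => hx.1) hGm
      hgr ?_ (σ := fun x => deriv (fun v => LL hn P P' o (l + 1) v v) x) hs₀
      (fun x hx => ⟨(hA x hx).2.1, (hA x hx).1⟩) ?_ ?_
    · intro x hx0 hx1 hxG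
      have hx0' : (0 : ℝ) < x := by exact_mod_cast hx0
      have hx1' : (x : ℝ) < δ := by exact_mod_cast hx1
      have h3 := B.h1
      rw [psi_diag V hC1 (ll_bd01 H l) hxG.2 B (by linarith) (by linarith) (by linarith)
        (by linarith), mul_zero]
    · intro x hx h3 h4
      obtain ⟨m1, m2, m3, m4, m5, la, t, m6, ⟨m7, -⟩, -⟩ := hA x hx
      have m8 := m6.aff l le_rfl (by omega)
      have m9 := aff_der m8
      rw [m7] at m9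
      have hd : deriv (fun v => LL hn P P' o (l + 1) v v) x = 1 + t l := m9.deriv
      refine ⟨m5, m4, ?_, ?_, m9.continuousAt, m3⟩
      · rw [hd]
        exact lu_rg V hC1 hrho m1 m6.aff m7 B h01 h3 (by linarith) (by linarith) (by linarith)
      · rw [hd, ← m7]
        exact aff_dg m8
    · intro x hx _ _
      obtain ⟨-, -, -, -, -, la, t, -, ⟨-, m8⟩, -⟩ := hA x hx
      exact m8

/-- **The count with no loss** for the static chains, at the windows with `X`. -/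
theorem hc0_cS (H : PkT hn S P r P' Λ PB) (hTop : TopS n) (hF1 : FZX 1) (hF : FZX (n - 1))
    (hn4 : n ≤ 4) (hW : ∀ k, 2 ≤ k → k < n → RW k) {C' : (Fin (n - 1) → ℝ) → ℝ → Prop}
    (hCm : MeasurableSet {p : (Fin (n - 1) → ℝ) × ℝ | C' p.1 p.2}) (hV : VAll hn hTop hF C')
    {h : ℝ} (hh : 0 ≤ h) {X : Od n → ℕ → ℝ → Prop} (hMev : ∀ (o : Od n) (l : ℕ), 1 ≤ l →
      l < n - 1 → MevY hn S P r P' Λ o l (X o l)) (o : Od n) (l : ℕ) :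
    ∀ᵐ g : ℝ, RwH H hTop hF h o g → Pool.Z4.Cfg hn P P' o l g → X o l g →
      CokS C' (fun j => deriv (fun v => LL hn P P' o (ix l j + 1) v v) g)
        (deriv (fun v => LL hn P P' o (l + 1) v v) g) → False := by
  by_cases hl : 1 ≤ l ∧ l < n - 1
  swap
  · exact Eventually.of_forall fun g _ hC => absurd ⟨hC.l1, hC.ln⟩ hl
  obtain ⟨hl1, hl2⟩ := hl
  obtain ⟨al, g₀, s, d, e, K₀, N, hal, hg₀, hC⟩ := H.toPk.cl
  filter_upwards [nore_cnt0S H.toPk hTop hF1 hF hn4 hW hCm hV hal hg₀ hC hl1 hl2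
    (hMev o l hl1 hl2)] with g h1 R hCf hX hck
  have hg := R.rwd.mem
  have h2 := h1 hg (cfg_of H hl2 hg hCf) hck hX
  have hdg : (H.nk hTop hF).dg o (n - 1) = fun a => P a a := (H.nk hTop hF).dg_m o
  have hone : 1 ≤ deriv (fun a => P a a) g := by
    have h3 := R.rwd.one (n - 1) le_rfl
    rwa [hdg] at h3
  have h3 := R.defi
  have h4 : 0 < deriv (fun a => P a a) g * (1 - deriv r (P g g)) :=
    mul_pos (by linarith) (by linarith)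
  linarith

end Pool.SW
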