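import Pool.Agent.H19.ONE.Nor1
import Pool.Agent.H82.MV.Nor9

/-!
# The rows whose target has slope one, in two parts

The count is used only at the windows where the other coordinates of the base have slopes larger than
one (`Xb`, the same data on the events as for the other slopes of the target). `LV01 n`: the base is
static at the windows with a second coordinate of slope one. `sta_oneB`: the static chains.
`lSta1_ofB`, `lSta1_fourB`: `LSta1` from its parts.
-/

set_option autoImplicit false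

namespace Pool.MV

open MeasureTheory Set Filter Topology
open Pool.Agent.H49.Ent Pool.Agent.H32.Dense Pool.STK Pool.KA Pool.KSAT Pool.K2S Pool.PB
open Pool.GEN Pool.S6C Pool.STAT Pool.CHT Pool.GRW Pool.ONE Pool.STA Pool.PKG Pool.ZFN Pool.TOP
open Pool.Z4
open Pool.LBT (LSys ThrOf)
open Pool.LEV (Law Lv)
open Pool.ALL (RateOf)
open Pool.STR (NumI StaAt ThinAt SteepAt MicW)
open Pool.EXW
open Pool.ISO (lvN)
open Pool.SW (hc0_cS cokS_two)
open Pool.ASM (TwS twS_meas)

variable {n : ℕ} {hn : 2 ≤ n} {S : PCl n} {P : ℝ → ℝ → ℝ} {r : ℝ → ℝ}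
  {P' : ℕ → List (Fin n) × Fin n → ℝ → ℝ → ℝ} {Λ : Finset (Fin n) → Fin n → ℝ → ℝ → ℝ}
  {PB : ℕ → List (Fin n) × Fin n → ℝ → ℝ → ℝ}

/-- **There are no windows of the count** where the target has slope one. -/
theorem one_cntB (H : PkT hn S P r P' Λ PB) (hTop : TopS n) (hF1 : FZX 1) (hF : FZX (n - 1))
    (hn4 : n ≤ 4) (hW : ∀ k, 2 ≤ k → k < n → Pool.TOP.RW k) (hV : VAll hn hTop hF (TwS n))
    {h : ℝ} (hh : 0 ≤ h) {Y : Od n → ℝ → Prop} (hMev : ∀ (o : Od n) (l : ℕ), 1 ≤ l →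
      l < n - 1 → MevY hn S P r P' Λ o l
        (fun g => RwH H hTop hF h o g ∧ Xb hn P P' PB o l g ∧ Y o g)) (o : Od n) (l : ℕ) :
    ∀ᵐ g : ℝ, RwH H hTop hF h o g → Xb hn P P' PB o l g → deriv (fun a => P a a) g = 1 →
      Y o g → False := by
  have eP : LL hn P P' o (n - 1 + 1) = P := by
    rw [← lvL_eq o le_rfl]
    funext a w
    exact LvL_top o a w
  filter_upwards [hc0_cS H hTop hF1 hF hn4 hW (twS_meas n) hV hh
    (X := fun o l g => RwH H hTop hF h o g ∧ Xb hn P P' PB o l g ∧ Y o g) hMev o l]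
    with g k R hX hS hY
  have hl1 := hX.cfg.l1
  have hln := hX.cfg.ln
  refine k R hX.cfg ⟨R, hX, hY⟩ (cokS_two hn4 hX.cfg.one (j := n - 2) (by omega) (by omega) ?_)
  have e1 : ix l (n - 2) = n - 1 := by
    unfold ix
    rw [if_neg (by omega)]
    omega
  show deriv (fun v => LL hn P P' o (ix l (n - 2) + 1) v v) g = 1
  rw [e1, eP]
  exact hS

/-- **The static chains** where the target has slope one. -/
theorem sta_oneB (H : PkT hn S P r P' Λ PB) (hTop : TopS n) (hF1 : FZX 1) (hF : FZX (n - 1))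
    (hn4 : n ≤ 4) (hW : ∀ k, 2 ≤ k → k < n → Pool.TOP.RW k) {h : ℝ} (hh : 0 ≤ h)
    (hV0 : ∀ o : Od n, ∀ᵐ g : ℝ, RwH H hTop hF h o g → deriv (fun a => P a a) g = 1 →
      (∃ i, 1 ≤ i ∧ i < n - 1 ∧ deriv (fun a => LL hn P P' o (i + 1) a a) g ≤ 1) →
      ∀ i < n - 1, StaAt (LL hn P P' o (i + 1)) g)
    (hbig : ∀ o : Od n, ∀ᵐ g : ℝ, RwH H hTop hF h o g → deriv (fun a => P a a) g = 1 →
      One1 hn P P' o g → BigS hn P P' PB o g)
    (hV : VAll hn hTop hF (TwS n)) {Y : Od n → ℝ → Prop}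
    (hY : ∀ o : Od n, ∀ᵐ g : ℝ, g ∈ Gs P r P' Λ o → Y o g)
    (hMev : ∀ (o : Od n) (l : ℕ), 1 ≤ l → l < n - 1 → MevY hn S P r P' Λ o l
        (fun g => RwH H hTop hF h o g ∧ Xb hn P P' PB o l g ∧ DfO hn P' o g ∧ Y o g)) :
    ∀ o : Od n, ∀ᵐ g : ℝ, RwH H hTop hF h o g → deriv (fun a => P a a) g = 1 →
      ∀ i < n - 1, StaAt (LL hn P P' o (i + 1)) g := by
  have hw : ∀ o : Od n, ∀ᵐ g : ℝ, RwH H hTop hF h o g → deriv (fun a => P a a) g = 1 →
      (∀ i < n - 1, StaAt (LL hn P P' o (i + 1)) g) ∨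
        (One1 hn P P' o g ∧ ∀ i < n - 1, ThS hn P P' PB o i g) := fun o => by
    filter_upwards [hV0 o, hbig o, ths_of H hTop hF] with g k0 k1 k2 R hS
    by_cases hex : ∃ i, 1 ≤ i ∧ i < n - 1 ∧ deriv (fun a => LL hn P P' o (i + 1) a a) g ≤ 1
    · exact Or.inl (k0 R hS hex)
    · push Not at hex
      exact Or.inr ⟨fun i h1 h2 => hex i h1 h2, k2 o R.rwd.mem (k1 R hS fun i h1 h2 => hex i h1 h2)⟩
  refine nore_dfoP H hTop hF hn4 (p := fun g => deriv (fun a => P a a) g = 1) (fun o => ?_)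
    fun o => ?_
  · filter_upwards [hw o] with g k R hS
    exact (k R hS).imp id And.right
  have hc := fun l => one_cntB H hTop hF1 hF hn4 hW hV hh
    (Y := fun o g => DfO hn P' o g ∧ Y o g) hMev o l
  filter_upwards [hw o, ae_all_iff.2 hc, hY o, rg_ths H hTop hF, sta_zero H hTop hF o]
    with g k2 k3 k5 k6 k4 R hS hD
  rcases k2 R hS with h0 | ⟨hone1, hths⟩
  · exact h0
  by_contra hcon
  push Not at hcon
  obtain ⟨i₀, hi₀, hi₀'⟩ := hcon
  have hdg : ∀ i ≤ n - 1, (H.nk hTop hF).dg o i = fun a => LL hn P P' o (i + 1) a a :=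
    fun i hi => by
      funext a
      exact H.dg_eq hTop hF o hi a
  -- the last coordinate which is not static
  obtain ⟨l, hl, hns, hmax⟩ : ∃ l, l < n - 1 ∧ ¬ StaAt (LL hn P P' o (l + 1)) g ∧
      ∀ i, l < i → i < n - 1 → StaAt (LL hn P P' o (i + 1)) g := by
    classical
    obtain ⟨s, hs⟩ : ∃ s : Finset ℕ, ∀ i, i ∈ s ↔ i < n - 1 ∧
        ¬ StaAt (LL hn P P' o (i + 1)) g :=
      ⟨(Finset.range (n - 1)).filter (fun i => ¬ StaAt (LL hn P P' o (i + 1)) g), by simp⟩
    have hne : s.Nonempty := ⟨i₀, (hs i₀).2 ⟨hi₀, hi₀'⟩⟩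
    have hm := (hs _).1 (s.max'_mem hne)
    refine ⟨s.max' hne, hm.1, hm.2, fun i h1 h2 => ?_⟩
    by_contra h3
    exact absurd (s.le_max' i ((hs i).2 ⟨h2, h3⟩)) (by omega)
  have hl1 : 1 ≤ l := by
    by_contra h0
    have : l = 0 := by omega
    rw [this] at hns
    exact hns (k4 R.rwd.mem)
  have hdif : ∀ i ≤ n - 1, DifferentiableAt ℝ (fun a => LL hn P P' o (i + 1) a a) g :=
    fun i hi => by
      rw [← hdg i hi]
      exact R.rwd.dif i hi
  have hone : ∀ i ≤ n - 1, deriv (fun a => LL hn P P' o (i + 1) a a) g ≤ 1 →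
      StaAt (LL hn P P' o (i + 1)) g := fun i hi h1 => sta_one H hTop hF R.rwd hi h1
  have hstN : StaAt P g := by
    have h5 := hone (n - 1) le_rfl
    rw [LL_lst] at h5
    exact h5 hS.le
  have hsta : ∀ i, l < i → i ≤ n - 1 → StaAt (LL hn P P' o (i + 1)) g := fun i h1 h2 => by
    rcases h2.lt_or_eq with h3 | h3
    · exact hmax i h1 h3
    · rw [h3, LL_lst]
      exact hstN
  rcases k6 o R.rwd.mem l hl.le (hths l hl) with h5 | h5
  · exact hns h5
  refine k3 l R ⟨hstN, hone1, hths, ⟨hl1, hl, hdif, fun i hi => ?_, ?_, h5, hsta⟩⟩ hS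
    ⟨hD, k5 R.rwd.mem⟩
  · have := R.rwd.lt i hi
    rwa [hdg i hi] at this
  · by_contra h6
    push Not at h6
    exact hns (hone l hl.le h6)

end Pool.MV

namespace Pool.ASM

open MeasureTheory Set Filter Topology
open Pool.Agent.H49.Ent Pool.Agent.H32.Dense Pool.STK Pool.KA Pool.KSAT Pool.K2S Pool.PB
open Pool.GEN Pool.S6C Pool.GRW Pool.PKG Pool.STAT Pool.PM Pool.R1 Pool.Z4 Pool.CHT
open Pool.ONE (LocE Ext0 Ext rowN_of_ext)
open Pool.TOP (TopS rw_all)
open Pool.LEV (Law Lv)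
open Pool.STR (NumI TopW Mac StaAt IsoAt StaU1 ThinAt SteepAt Rle)
open Pool.MIC6
open Pool.MV (DfO NvU mevY_of sta_oneB)

/-- **A second coordinate of the base of slope one**, where the target has slope one: the base is
static. -/
def LV01 (n : ℕ) : Prop := (∀ k, 2 ≤ k → k < n → Ext0 k) →
  Tol fun η => LocE n η MicRt → AllC n η fun {hn} {_} {P} {_} {P'} {_} {_} H hTop hF h =>
    ∀ o : Od n, ∀ᵐ g : ℝ, RwH H hTop hF h o g → deriv (fun a => P a a) g = 1 →
      (∃ i, 1 ≤ i ∧ i < n - 1 ∧ deriv (fun a => LL hn P P' o (i + 1) a a) g ≤ 1) →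
      ∀ i < n - 1, StaAt (LL hn P P' o (i + 1)) g

/-- At most two coordinates in the base. -/
theorem lV01_le {n : ℕ} (h3 : n ≤ 3) : LV01 n := fun _ => Tol.of_all fun η _ _ _ => by
  intro hn hZ hF hTop D hD hD1 hE S P r P' Λ PB H o
  filter_upwards [sta_zero H hTop hF o] with g k1 R _ hex i hi
  obtain ⟨j, hj1, hj, hs⟩ := hex
  rcases Nat.eq_zero_or_pos i with h0 | h0
  · rw [h0]
    exact k1 R.rwd.mem
  · have : i = j := by omega
    rw [this]
    exact sta_one H hTop hF R.rwd (by omega) hs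

/-- **The base is static at the rows whose target has slope one**, from the rows with a second contact
coordinate, the cells before the target, no boxes with more than one contact coordinate, and the data
on the events. -/
theorem lSta1_ofB {n : ℕ} (hn4 : n ≤ 4) (h0 : LV01 n)
    (hC : ∀ κ : List Kd, κ.length + 3 ≤ n → LCellA n (Kd.one :: κ) ∨ 1 ≤ κ.length ∧
      κ[0]? = some Kd.one) (hA : LTwA n) (hM : LMevB n) : LSta1 n := fun hi => by
  have hfin : Finite {κ : List Kd // κ.length + 3 ≤ n} := by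
    have h4 := cells_fin n
    refine Finite.of_injective (fun κ : {κ : List Kd // κ.length + 3 ≤ n} =>
      (⟨κ.1, by have := κ.2; omega⟩ : {κ : List Kd // κ.length + 2 ≤ n})) fun a b hab => ?_
    exact Subtype.ext (Subtype.mk.inj hab)
  have hC1 : Tol fun η => ∀ κ : {κ : List Kd // κ.length + 3 ≤ n},
      AllC n η fun {hn} {_} {P} {_} {P'} {_} {_} H hTop hF h =>
        CellX H hTop hF h (fun o g => One1 hn P P' o g) (Kd.one :: κ.1) := by
    refine Tol.fin fun κ => ?_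
    rcases hC κ.1 κ.2 with h1 | ⟨h1, h2⟩
    · refine (h1 hi).mono fun η h3 => ?_
      intro hn hZ hF hTop D hD hD1 hE S P r P' Λ PB H
      exact CellX.of (h3 hn hZ hF hTop D hD hD1 hE S P r P' Λ PB H) _
    · refine Tol.of_all fun η _ _ => ?_
      intro hn hZ hF hTop D hD hD1 hE S P r P' Λ PB H o
      refine Eventually.of_forall fun g R hX _ hK _ _ => ?_
      have hκ := κ.2
      have h3 := hK 1 (by rw [List.length_cons]; omega)
      have h4 : (Kd.one :: κ.1)[1]'(by rw [List.length_cons]; omega) = Kd.one := by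
        rw [List.getElem_cons_succ]
        exact (List.getElem?_eq_some_iff.1 h2).2
      rw [h4] at h3
      have h5 : 1 < deriv (fun a => LL hn P P' o (1 + 1) a a) g := hX 1 le_rfl (by omega)
      have e1 : LvL hn P P' o 1 = LL hn P P' o (1 + 1) := Pool.Z4.lvL_eq o (by omega)
      have h6 : deriv (fun a => LvL hn P P' o 1 a a) g = 1 := h3
      rw [e1] at h6
      rw [h6] at h5
      exact absurd h5 (lt_irrefl _)
  refine ((hC1.and ((hM hi).and (h0 hi))).and (Tol.le 1 one_pos)).mono fun η h hMic => ?_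
  obtain ⟨⟨h1, h4, h5⟩, h6⟩ := h
  intro hn hZ hF hTop D hD hD1 hE' S P r P' Λ PB H
  have e1 := h6 D hD
  obtain ⟨Y, hY, hMev⟩ := h4 hMic hn hZ hF hTop D hD hD1 hE' S P r P' Λ PB H
  have hW := rw_all hZ fun k k1 k2 => rowN_of_ext (hi k k1 k2)
  refine sta_oneB H hTop (hZ 1 le_rfl (by omega)) hF hn4 hW
    (mul_nonneg (by linarith) hD.le) (h5 hMic hn hZ hF hTop D hD hD1 hE' S P r P' Λ PB H)
    (fun o => ?_) (vAll_two hA hi hn hZ hF hTop) hY hMev
  filter_upwards [TwoX.big (fun i a1 a2 => twoX_of H hTop hF a1 (by omega) fun κ hκ =>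
    h1 ⟨κ, by omega⟩ hn hZ hF hTop D hD hD1 hE' S P r P' Λ PB H) o] with g k R _ h7
  exact k R h7

/-- **Dimension four**: the data on the events are the same as for the other slopes. -/
theorem lSta1_fourB (h0 : LV01 4) (cT : LCellA 4 [Kd.one, Kd.thin])
    (cS : LCellA 4 [Kd.one, Kd.sta]) (hA : LTwA 4) (hM : LMevB 4) : LSta1 4 := by
  refine lSta1_ofB le_rfl h0 (fun κ hκ => ?_) hA hM
  match κ with
  | [] => exact Or.inl (lCellA_one 4)
  | [k] =>
    cases k with
    | one => exact Or.inr ⟨le_rfl, rfl⟩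
    | thin => exact Or.inl cT
    | sta => exact Or.inl cS
  | _ :: _ :: _ => exact absurd hκ (by simp)

end Pool.ASM
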